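import Pool.Agent.U685.GLP.Big

/-!
# MP_2f8bd9_al: the answer is positive if the field has more elements than the dimension

Let `V` be a vector space of infinite dimension `κ` over `F` and let `H` be a subgroup of `GL(V)` with
`H^U = GL(U)` for every large subspace `U`.

* If `|F| > κ` then `H = GL(V)`.
* For all `F` and `κ`: if `(h - c) V` is large for some `h` in `H` and `c` in `F` then `H = GL(V)`.
-/

set_option autoImplicit false

namespace Pool.Agent.Results.MP_2f8bd9_al.FieldLargerThanDimension

open Cardinal Pool.Agent.U685.GLP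

universe u v

variable {F : Type u} {V : Type v} [Field F] [AddCommGroup V] [Module F V]

/-- The subspace `U` is large: its dimension and its codimension are equal to the dimension of `V`. -/
def IsLarge (U : Submodule F V) : Prop :=
  Module.rank F U = Module.rank F V ∧ Module.rank F (V ⧸ U) = Module.rank F V

/-- `H^U`: the restrictions to `U` of the elements `h` of `H` with `h(U) = U`. -/
def induced (H : Subgroup (V ≃ₗ[F] V)) (U : Submodule F V) : Set (U ≃ₗ[F] U) :=
  {g | ∃ h ∈ H, U.map (h : V →ₗ[F] V) = U ∧ ∀ u : U, h (u : V) = (g u : V)}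

theorem hp_of_induced {H : Subgroup (V ≃ₗ[F] V)}
    (hH : ∀ U : Submodule F V, IsLarge U → induced H U = Set.univ) : HP H := by
  intro U hU hU' g
  have h1 : g ∈ induced H U := by
    rw [hH U ⟨hU.eq, hU'.eq⟩]
    trivial
  obtain ⟨h, hh, -, h2⟩ := h1
  exact ⟨h, hh, h2⟩

/-- **Theorem.** Let `V` be a vector space of infinite dimension over a field `F` and let `H` be a subgroup of
`GL(V)` with `H^U = GL(U)` for every large subspace `U`. If `F` has more elements than the dimension of `V`
then `H = GL(V)`. For every field: if for some `h` in `H` and some `c` in `F` the range of `h - c` is large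
then `H = GL(V)`. -/
theorem result (F : Type u) (V : Type v) [Field F] [AddCommGroup V] [Module F V]
    (hV : ℵ₀ ≤ Module.rank F V) (H : Subgroup (V ≃ₗ[F] V))
    (hH : ∀ U : Submodule F V, IsLarge U → induced H U = Set.univ) :
    (Cardinal.lift.{u} (Module.rank F V) < Cardinal.lift.{v} #F → H = ⊤) ∧
    (∀ h ∈ H, ∀ c : F, IsLarge (LinearMap.range ((h : V →ₗ[F] V) - c • LinearMap.id)) →
      H = ⊤) :=
  ⟨fun hF => big_field hV hF (hp_of_induced hH),
    fun _ hh _ h1 => core hV (hp_of_induced hH) hh h1.1.ge h1.2.ge⟩

end Pool.Agent.Results.MP_2f8bd9_al.FieldLargerThanDimension
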