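import Mathlib
import Pool.Agent.Results.MP_2f8bd9_al.CounterexampleUnderCH
import Pool.Agent.Helper292.ForceCH

/-!
# Consistently, some proper subgroup of `GL(V)` induces the full linear group on all large subspaces

The forcing language is the one of `Helper292.ForceCH`: a sentence is the set of the conditions
which force it; `CHHolds P` says that `ω₁` many subsets of `ℕ` are all subsets of `ℕ`.
-/

set_option autoImplicit false

namespace Pool.Agent.Results.MP_2f8bd9_al.ForcedCounterexample

open Cardinal Pool.Agent.Helper292.ForceCH
open Pool.Agent.Results.MP_2f8bd9_al.CounterexampleUnderCH (IsLarge induced)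

/-- (1) Some forcing notion forces that `ω₁` is preserved and that the continuum hypothesis holds.
(2) The continuum hypothesis implies that for every countable field `F` and every vector space `V`
of dimension `ℵ₀` over `F` there is a proper subgroup `H` of `GL(V)` with `H^U = GL(U)` for every
large subspace `U`. -/
theorem result :
    (∃ (P : Type) (_ : Preorder P), Nonempty P ∧ ∀ p : P,
      p ∈ OmegaOnePreserved P ∧ p ∈ CHHolds P) ∧
    ((ℵ₁ : Cardinal.{0}) = 𝔠 → ∀ (F V : Type) [Field F] [AddCommGroup V] [Module F V] [Countable F],
      Module.rank F V = ℵ₀ → ∃ H : Subgroup (V ≃ₗ[F] V), H ≠ ⊤ ∧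
        ∀ U : Submodule F V, IsLarge U → induced H U = Set.univ) := by
  refine ⟨?_, fun h F V _ _ _ _ hV => (CounterexampleUnderCH.result F V hV).2 h⟩
  · obtain ⟨P, i, h1, h2⟩ := exists_forcing
    exact ⟨P, i, h1, fun p => ⟨(h2 p).1, (h2 p).2.2⟩⟩

end Pool.Agent.Results.MP_2f8bd9_al.ForcedCounterexample
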